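import Pool.Agent.R373.SQ.Fin

/-!
# MP_507a17_nt, Q2: the rate `(log N)^d / N` for sequences and arbitrary measures

For every `d ≥ 1` there is a constant `C` such that every probability measure `μ` on the cube
`[0,1]^d` admits an infinite sequence in `[0,1]^d` whose first `N` terms satisfy, for every `N ≥ 2`
and every axis-parallel box (every product of intervals of any kind: bounded or unbounded, open,
closed, half-open, degenerate or empty), a discrepancy bound `C (log N)^d / N` with respect to `μ`.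
-/

set_option autoImplicit false

namespace Pool.Agent.Results.MP_507a17_nt.SequencesAllMeasures

open MeasureTheory Finset

open Classical in
/-- Local discrepancy (not normalised) of `x 0, …, x (N-1)` on the box with sides `I i`. -/
noncomputable def err {d : ℕ} (μ : Measure (Fin d → ℝ)) (x : ℕ → Fin d → ℝ) (N : ℕ)
    (I : Fin d → Set ℝ) : ℝ :=
  (((range N).filter (fun n => ∀ i, x n i ∈ I i)).card : ℝ) - N * (μ {z | ∀ i, z i ∈ I i}).toReal

theorem ordConn_diff (I : Set ℝ) (hI : I.OrdConnected) :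
    ∃ L1 L2 : Set ℝ, IsLowerSet L1 ∧ IsLowerSet L2 ∧ L2 ⊆ L1 ∧ I = L1 \ L2 := by
  rcases Set.eq_empty_or_nonempty I with rfl | ⟨a0, ha0⟩
  · exact ⟨∅, ∅, fun _ _ _ h => h, fun _ _ _ h => h, subset_rfl, by simp⟩
  · refine ⟨{z | ∃ a ∈ I, z ≤ a}, {z | ∀ a ∈ I, z < a}, ?_, ?_, ?_, ?_⟩
    · rintro a b hab ⟨c, hc, hac⟩
      exact ⟨c, hc, hab.trans hac⟩
    · intro a b hab h c hc
      exact lt_of_le_of_lt hab (h c hc)
    · intro z hz
      exact ⟨a0, ha0, (hz a0 ha0).le⟩
    · ext z
      constructor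
      · intro hz
        exact ⟨⟨z, hz, le_rfl⟩, fun h => lt_irrefl _ (h z hz)⟩
      · rintro ⟨⟨a, ha, hza⟩, hz2⟩
        have : ∃ b ∈ I, b ≤ z := by
          by_contra hcon
          push Not at hcon
          exact hz2 hcon
        obtain ⟨b, hb, hbz⟩ := this
        exact hI.out hb ha ⟨hbz, hza⟩

theorem err_diff {d : ℕ} (μ : Measure (Fin d → ℝ)) [IsProbabilityMeasure μ] (x : ℕ → Fin d → ℝ)
    (N : ℕ) (I : Fin d → Set ℝ) (hI : ∀ i, (I i).OrdConnected) (k : Fin d) (L1 L2 : Set ℝ)
    (_h1 : IsLowerSet L1) (h2 : IsLowerSet L2) (h21 : L2 ⊆ L1) (hk : I k = L1 \ L2) :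
    err μ x N I = err μ x N (Function.update I k L1) - err μ x N (Function.update I k L2) := by
  classical
  have hmeas : ∀ J : Fin d → Set ℝ, (∀ i, (J i).OrdConnected) →
      MeasurableSet {z : Fin d → ℝ | ∀ i, z i ∈ J i} := by
    intro J hJ
    have : {z : Fin d → ℝ | ∀ i, z i ∈ J i} = Set.pi Set.univ J := by
      ext z; simp
    rw [this]
    exact MeasurableSet.univ_pi fun i => (hJ i).measurableSet
  have hO1 : ∀ L : Set ℝ, IsLowerSet L → ∀ i, (Function.update I k L i).OrdConnected := by
    intro L hL i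
    by_cases hik : i = k
    · subst hik
      rw [Function.update_self]
      exact hL.ordConnected
    · rw [Function.update_of_ne hik]
      exact hI i
  have hmem : ∀ (z : Fin d → ℝ) (L : Set ℝ), (∀ i, z i ∈ Function.update I k L i) ↔
      z k ∈ L ∧ ∀ i, i ≠ k → z i ∈ I i := by
    intro z L
    constructor
    · intro h
      refine ⟨by simpa using h k, fun i hi => by simpa [Function.update_of_ne hi] using h i⟩
    · rintro ⟨ha, hb⟩ i
      by_cases hik : i = k
      · subst hik
        rw [Function.update_self]; exact ha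
      · rw [Function.update_of_ne hik]; exact hb i hik
  have hmemI : ∀ z : Fin d → ℝ, (∀ i, z i ∈ I i) ↔ (z k ∈ L1 ∧ z k ∉ L2) ∧ ∀ i, i ≠ k → z i ∈ I i := by
    intro z
    constructor
    · intro h
      have := h k
      rw [hk] at this
      exact ⟨this, fun i _ => h i⟩
    · rintro ⟨ha, hb⟩ i
      by_cases hik : i = k
      · subst hik
        rw [hk]; exact ha
      · exact hb i hik
  have hsub : {z : Fin d → ℝ | ∀ i, z i ∈ Function.update I k L2 i} ⊆
      {z : Fin d → ℝ | ∀ i, z i ∈ Function.update I k L1 i} := by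
    intro z hz
    rw [Set.mem_ofPred_eq, hmem] at hz ⊢
    exact ⟨h21 hz.1, hz.2⟩
  have hset : {z : Fin d → ℝ | ∀ i, z i ∈ I i} =
      {z : Fin d → ℝ | ∀ i, z i ∈ Function.update I k L1 i} \
        {z : Fin d → ℝ | ∀ i, z i ∈ Function.update I k L2 i} := by
    ext z
    rw [Set.mem_sdiff, Set.mem_ofPred_eq, Set.mem_ofPred_eq, Set.mem_ofPred_eq, hmem, hmem, hmemI]
    tauto
  have hμ : (μ {z : Fin d → ℝ | ∀ i, z i ∈ I i}).toReal =
      (μ {z : Fin d → ℝ | ∀ i, z i ∈ Function.update I k L1 i}).toReal -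
        (μ {z : Fin d → ℝ | ∀ i, z i ∈ Function.update I k L2 i}).toReal := by
    rw [hset, measure_sdiff hsub (hmeas _ (hO1 L2 h2)).nullMeasurableSet (measure_ne_top _ _),
      ENNReal.toReal_sub_of_le (measure_mono hsub) (measure_ne_top _ _)]
  have hsubc : (range N).filter (fun n => ∀ i, x n i ∈ Function.update I k L2 i) ⊆
      (range N).filter (fun n => ∀ i, x n i ∈ Function.update I k L1 i) := by
    intro n hn
    rw [Finset.mem_filter] at hn ⊢
    exact ⟨hn.1, hsub hn.2⟩
  have hcard : (((range N).filter (fun n => ∀ i, x n i ∈ I i)).card : ℝ) =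
      (((range N).filter (fun n => ∀ i, x n i ∈ Function.update I k L1 i)).card : ℝ) -
        (((range N).filter (fun n => ∀ i, x n i ∈ Function.update I k L2 i)).card : ℝ) := by
    have : (range N).filter (fun n => ∀ i, x n i ∈ I i) =
        (range N).filter (fun n => ∀ i, x n i ∈ Function.update I k L1 i) \
          (range N).filter (fun n => ∀ i, x n i ∈ Function.update I k L2 i) := by
      ext n
      rw [Finset.mem_sdiff, Finset.mem_filter, Finset.mem_filter, Finset.mem_filter, hmem, hmem,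
        hmemI]
      tauto
    rw [this, Finset.card_sdiff_of_subset hsubc, Nat.cast_sub (Finset.card_le_card hsubc)]
  unfold err
  rw [hμ]
  have e1 := hcard
  linear_combination e1

/-- From products of lower sets to products of intervals, one coordinate at a time. -/
theorem err_le {d : ℕ} (μ : Measure (Fin d → ℝ)) [IsProbabilityMeasure μ] (x : ℕ → Fin d → ℝ)
    (N : ℕ) (B : ℝ) (hB : ∀ L : Fin d → Set ℝ, (∀ i, IsLowerSet (L i)) → |err μ x N L| ≤ B) :
    ∀ k : ℕ, ∀ I : Fin d → Set ℝ, (∀ i, (I i).OrdConnected) →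
      (∀ i : Fin d, k ≤ (i : ℕ) → IsLowerSet (I i)) → |err μ x N I| ≤ 2 ^ k * B := by
  intro k
  induction k with
  | zero =>
    intro I _ h
    simpa using hB I fun i => h i (Nat.zero_le _)
  | succ k ih =>
    intro I hI h
    by_cases hkd : k < d
    · obtain ⟨L1, L2, h1, h2, h21, hk⟩ := ordConn_diff (I ⟨k, hkd⟩) (hI _)
      rw [err_diff μ x N I hI ⟨k, hkd⟩ L1 L2 h1 h2 h21 hk]
      have key : ∀ L : Set ℝ, IsLowerSet L →
          |err μ x N (Function.update I ⟨k, hkd⟩ L)| ≤ 2 ^ k * B := by
        intro L hL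
        refine ih _ (fun i => ?_) (fun i hi => ?_)
        · by_cases hik : i = ⟨k, hkd⟩
          · subst hik
            rw [Function.update_self]
            exact hL.ordConnected
          · rw [Function.update_of_ne hik]
            exact hI i
        · by_cases hik : i = ⟨k, hkd⟩
          · subst hik
            rw [Function.update_self]
            exact hL
          · rw [Function.update_of_ne hik]
            refine h i ?_
            rcases Nat.lt_or_ge k i with h' | h'
            · exact h'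
            · exact absurd (Fin.ext (le_antisymm h' hi)) hik
      calc |err μ x N (Function.update I ⟨k, hkd⟩ L1) - err μ x N (Function.update I ⟨k, hkd⟩ L2)|
          ≤ |err μ x N (Function.update I ⟨k, hkd⟩ L1)| +
            |err μ x N (Function.update I ⟨k, hkd⟩ L2)| := abs_sub _ _
        _ ≤ 2 ^ k * B + 2 ^ k * B := add_le_add (key L1 h1) (key L2 h2)
        _ = 2 ^ (k + 1) * B := by ring
    · have hB0 : 0 ≤ B := (abs_nonneg _).trans
        (hB (fun _ => Set.univ) fun _ => isLowerSet_univ)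
      refine (ih I hI (fun i hi => absurd (lt_of_le_of_lt hi i.2) hkd)).trans ?_
      rw [pow_succ]
      nlinarith [pow_pos (by norm_num : (0 : ℝ) < 2) k,
        mul_nonneg (pow_pos (by norm_num : (0 : ℝ) < 2) k).le hB0]

open Classical in
/-- **Answer to Q2 (yes).** For every `d ≥ 1` there is a constant `C` such that for every
probability measure `μ` on `[0,1]^d` there is a sequence in `[0,1]^d` with: for all `N ≥ 2` and all
axis-parallel boxes `{z | ∀ i, z i ∈ I i}` with interval sides `I i`, the proportion of the first `N`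
terms in the box differs from its `μ`-measure by at most `C (log N)^d / N`. -/
theorem result (d : ℕ) (hd : 1 ≤ d) :
    ∃ C : ℝ, ∀ μ : Measure (Fin d → ℝ), IsProbabilityMeasure μ →
      μ (Set.Icc (0 : Fin d → ℝ) 1)ᶜ = 0 →
      ∃ x : ℕ → (Fin d → ℝ), (∀ n, x n ∈ Set.Icc (0 : Fin d → ℝ) 1) ∧
        ∀ N : ℕ, 2 ≤ N → ∀ I : Fin d → Set ℝ, (∀ i, (I i).OrdConnected) →
          |(((range N).filter (fun n => ∀ i, x n i ∈ I i)).card : ℝ) / (N : ℝ)
              - (μ {z : Fin d → ℝ | ∀ i, z i ∈ I i}).toReal|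
            ≤ C * (Real.log (N : ℝ)) ^ d / (N : ℝ) := by
  obtain ⟨D, rfl⟩ : ∃ D, d = D + 1 := ⟨d - 1, by omega⟩
  obtain ⟨C, hC⟩ := Pool.Agent.R373.SQ.sequences D
  refine ⟨2 ^ (D + 1) * C, fun μ hμ hμ1 => ?_⟩
  obtain ⟨x, hx, h⟩ := hC μ hμ hμ1
  refine ⟨x, hx, fun N hN I hI => ?_⟩
  have hN0 : (0 : ℝ) < N := by
    have : 0 < N := by omega
    exact_mod_cast this
  have key := err_le μ x N (C * (Real.log (N : ℝ)) ^ (D + 1)) (fun L hL => h N hN L hL) (D + 1) I hI
    (fun i hi => absurd i.2 (not_lt.mpr hi))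
  have e : (((range N).filter (fun n => ∀ i, x n i ∈ I i)).card : ℝ) / (N : ℝ)
      - (μ {z : Fin (D + 1) → ℝ | ∀ i, z i ∈ I i}).toReal = err μ x N I / N := by
    unfold err
    field_simp
  rw [e, abs_div, abs_of_pos hN0]
  apply div_le_div_of_nonneg_right _ hN0.le
  calc |err μ x N I| ≤ 2 ^ (D + 1) * (C * (Real.log (N : ℝ)) ^ (D + 1)) := key
    _ = 2 ^ (D + 1) * C * (Real.log (N : ℝ)) ^ (D + 1) := by ring

end Pool.Agent.Results.MP_507a17_nt.SequencesAllMeasures
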